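import Pool.Agent.LatinDet.Prod

/-!
# MP_b97972_al: Latin squares of order `16 m` with a determinant of Frobenius type

For every `m ≥ 1` there is a Latin square of order `16 m` which is not isotopic to a group and whose
determinant is, up to a constant, the product of `8 m` linear forms and of the squares of `2 m`
irreducible quadratic forms, all of them pairwise non-associated.
-/

set_option autoImplicit false

namespace Pool.Agent.Results.MP_b97972_al.MultiplesOfSixteen

open MvPolynomial LatinDet

/-- Every symbol occurs exactly once in every row and in every column. -/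
def IsLatinSquare {n : ℕ} (L : Fin n → Fin n → Fin n) : Prop :=
  (∀ i, Function.Bijective (L i)) ∧ ∀ j, Function.Bijective fun i => L i j

/-- After a permutation of the rows, a permutation of the columns and a renaming of the symbols the
square is the multiplication table of a group. -/
def IsotopicToGroup {n : ℕ} (L : Fin n → Fin n → Fin n) : Prop :=
  ∃ (G : Type) (_ : Group G) (a b : Fin n ≃ G) (e : G ≃ Fin n), ∀ i j, L i j = e (a i * b j)

theorem result (m : ℕ) (hm : 0 < m) :
    ∃ L : Fin (16 * m) → Fin (16 * m) → Fin (16 * m),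
      IsLatinSquare L ∧ ¬ IsotopicToGroup L ∧
      ∃ (l : Fin (8 * m) → MvPolynomial (Fin (16 * m)) ℂ)
        (q : Fin (2 * m) → MvPolynomial (Fin (16 * m)) ℂ) (c : ℂ), c ≠ 0 ∧
        (∀ i, Irreducible (l i) ∧ (l i).totalDegree = 1) ∧
        (∀ i, Irreducible (q i) ∧ (q i).totalDegree = 2) ∧
        (∀ i j, i ≠ j → ¬ Associated (l i) (l j)) ∧
        (∀ i j, i ≠ j → ¬ Associated (q i) (q j)) ∧
        (∀ i j, ¬ Associated (l i) (q j)) ∧
        (Matrix.of fun i j => (X (L i j) : MvPolynomial (Fin (16 * m)) ℂ)).det =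
          C c * ((∏ i, l i) * ∏ i, q i ^ 2) := by
  have : NeZero m := ⟨hm.ne'⟩
  have hc : ∀ k : ℕ,
      Fintype.card (Fin k × ZMod m) = k * m := fun k => by
    rw [Fintype.card_prod, Fintype.card_fin, ZMod.card]
  let e : Fin 16 × ZMod m ≃ Fin (16 * m) := Fintype.equivFinOfCardEq (hc 16)
  let e1 : Fin 8 × ZMod m ≃ Fin (8 * m) := Fintype.equivFinOfCardEq (hc 8)
  let e2 : Fin 2 × ZMod m ≃ Fin (2 * m) := Fintype.equivFinOfCardEq (hc 2)
  let φ := renameEquiv ℂ e
  have hass : ∀ p q : MvPolynomial (Fin 16 × ZMod m) ℂ,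
      Associated (φ p) (φ q) → Associated p q := by
    intro p q h
    have := h.map (φ.symm : MvPolynomial (Fin (16 * m)) ℂ →* MvPolynomial (Fin 16 × ZMod m) ℂ)
    simpa using this
  refine ⟨fun i j => e (tabm m (e.symm i) (e.symm j)), ⟨fun i => ?_, fun j => ?_⟩, ?_,
    fun i => φ (linm m (e1.symm i).1 (e1.symm i).2),
    fun i => φ (quadm m (e2.symm i).1 (e2.symm i).2), ?_⟩
  · exact e.bijective.comp ((tabm_row m (e.symm i)).comp e.symm.bijective)
  · exact e.bijective.comp ((tabm_col m (e.symm j)).comp e.symm.bijective)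
  · rintro ⟨G, hG, a, b, f, h⟩
    refine tabm_not_group m (fun p => a (e p)) (fun p => b (e p)) fun p q r s => ?_
    have h1 := h (e p) (e q)
    have h2 := h (e r) (e s)
    simp only [Equiv.symm_apply_apply] at h1 h2
    rw [← f.injective.eq_iff, ← h1, ← h2, e.injective.eq_iff]
  · obtain ⟨k, hk, hdet⟩ := det_MM m
    refine ⟨k, hk, fun i => ⟨?_, ?_⟩, fun i => ⟨?_, ?_⟩, fun i j hij h => ?_, fun i j hij h => ?_,
      fun i j h => ?_, ?_⟩
    · exact (MulEquiv.irreducible_iff φ).2 (irreducible_linm m _ _)
    · exact (totalDegree_renameEquiv e _).trans (totalDegree_linm m _ _)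
    · exact (MulEquiv.irreducible_iff φ).2 (irreducible_quadm m _ _)
    · exact (totalDegree_renameEquiv e _).trans (totalDegree_quadm m _ _)
    · exact not_associated_linm m (fun h' => hij (e1.symm.injective h')) (hass _ _ h)
    · exact not_associated_quadm m (fun h' => hij (e2.symm.injective h')) (hass _ _ h)
    · exact not_associated_linm_quadm m _ _ _ _ (hass _ _ h)
    · have h1 : (Matrix.of fun i j => (X (e (tabm m (e.symm i) (e.symm j))) :
          MvPolynomial (Fin (16 * m)) ℂ)) =
          ((φ : MvPolynomial (Fin 16 × ZMod m) ℂ →+* MvPolynomial (Fin (16 * m)) ℂ).mapMatrix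
            (MM m)).submatrix e.symm e.symm := by
        ext1 i j
        simp [MM, φ]
      rw [h1, Matrix.det_submatrix_equiv_self, ← RingHom.map_det, hdet, map_mul, map_mul, map_prod,
        map_prod]
      congr 1
      · simp [φ]
      · rw [← Equiv.prod_comp e1.symm, ← Equiv.prod_comp e2.symm]
        simp [φ]

end Pool.Agent.Results.MP_b97972_al.MultiplesOfSixteen
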